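import Pool.Agent.H211.HY.Stm1

/-!
# Good scales: the elementary counting argument (helper249, for helper211)
-/

set_option autoImplicit false

namespace Pool.Agent.H249.HY211

open Finset

/-- geometric sums -/
theorem geo (F : Finset ℕ) (q θ : ℝ) (hq : 0 ≤ q) (hθ : 0 ≤ θ)
    (h : ∀ m ∈ F, q ≤ θ * 2 ^ m) : ∑ m ∈ F, q / 2 ^ m ≤ 2 * θ := by
  rcases F.eq_empty_or_nonempty with rfl | hF
  · rw [Finset.sum_empty]
    positivity
  · have h0 : q ≤ θ * 2 ^ F.min' hF := h _ (F.min'_mem hF)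
    have hsub : F ⊆ Finset.Ico (F.min' hF) (F.max' hF + 1) := by
      intro m hm
      rw [Finset.mem_Ico]
      exact ⟨F.min'_le m hm, Nat.lt_succ_of_le (F.le_max' m hm)⟩
    have e1 : ∑ m ∈ F, q / 2 ^ m ≤ ∑ m ∈ Finset.Ico (F.min' hF) (F.max' hF + 1), q / 2 ^ m :=
      Finset.sum_le_sum_of_subset_of_nonneg hsub fun m _ _ => by positivity
    have e2 : ∑ m ∈ Finset.Ico (F.min' hF) (F.max' hF + 1), q / 2 ^ m =
        (q / 2 ^ F.min' hF) *
          ∑ j ∈ Finset.range (F.max' hF + 1 - F.min' hF), (1 / 2 : ℝ) ^ j := by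
      rw [Finset.sum_Ico_eq_sum_range, Finset.mul_sum]
      refine Finset.sum_congr rfl fun j _ => ?_
      rw [pow_add, one_div, inv_pow]
      field_simp
    have e3 : (q / 2 ^ F.min' hF) *
        ∑ j ∈ Finset.range (F.max' hF + 1 - F.min' hF), (1 / 2 : ℝ) ^ j ≤ θ * 2 := by
      refine mul_le_mul ?_ (sum_geometric_two_le _) (Finset.sum_nonneg fun j _ => by positivity) hθ
      rw [div_le_iff₀ (by positivity)]
      exact h0
    linarith

/-- the first time at which `q` is large -/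
theorem exists_N (q : ℕ → ℝ) (θ' : ℝ) (a b : ℕ) (hq : ∀ m, θ' * 2 ^ m < q (a * m + b)) :
    ∃ N : ℕ → ℕ, (∀ m, N m ≤ a * m + b) ∧ (∀ m, ∀ n < N m, q n ≤ θ' * 2 ^ m) ∧
      ∀ m, θ' * 2 ^ m < q (N m) := by
  classical
  have h : ∀ m, ∃ n, θ' * 2 ^ m < q n := fun m => ⟨_, hq m⟩
  refine ⟨fun m => Nat.find (h m), fun m => Nat.find_min' (h m) (hq m), fun m n hn => ?_,
    fun m => Nat.find_spec (h m)⟩
  exact not_lt.1 (Nat.find_min (h m) hn)

theorem sumV {q : ℕ → ℝ} {θ' : ℝ} {a b : ℕ} {N : ℕ → ℕ} (hq : ∀ n, 0 ≤ q n) (hθ : 0 ≤ θ')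
    (hN : ∀ m, N m ≤ a * m + b) (hN' : ∀ m, ∀ n < N m, q n ≤ θ' * 2 ^ m) (T : ℕ) :
    ∑ m ∈ range T, ∑ n ∈ range (N m), q n / 2 ^ m ≤ (a * T + b) * (2 * θ') := by
  have e1 : ∀ m ∈ range T, ∑ n ∈ range (N m), q n / 2 ^ m =
      ∑ n ∈ range (a * T + b), if n < N m then q n / 2 ^ m else 0 := by
    intro m hm
    rw [← Finset.sum_filter]
    refine Finset.sum_congr ?_ fun _ _ => rfl
    ext n
    rw [Finset.mem_filter, Finset.mem_range, Finset.mem_range]
    have h1 := hN m
    have h2 : a * m ≤ a * T := Nat.mul_le_mul_left a (Finset.mem_range.1 hm).le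
    constructor
    · intro h
      exact ⟨by omega, h⟩
    · exact fun h => h.2
  rw [Finset.sum_congr rfl e1, Finset.sum_comm]
  have e2 : ∀ n ∈ range (a * T + b),
      ∑ m ∈ range T, (if n < N m then q n / 2 ^ m else 0) ≤ 2 * θ' := by
    intro n _
    rw [← Finset.sum_filter]
    refine geo _ (q n) θ' (hq n) hθ fun m hm => ?_
    exact hN' m n (Finset.mem_filter.1 hm).2
  have e3 := Finset.sum_le_card_nsmul _ _ _ e2
  rw [Finset.card_range, nsmul_eq_mul] at e3
  push_cast at e3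
  exact e3

theorem count1 {q : ℕ → ℝ} {θ' : ℝ} {a b : ℕ} {N : ℕ → ℕ} (hq : ∀ n, 0 ≤ q n) (hθ : 0 ≤ θ')
    (hN : ∀ m, N m ≤ a * m + b) (hN' : ∀ m, ∀ n < N m, q n ≤ θ' * 2 ^ m) (T : ℕ) (θ : ℝ) :
    ((range T).filter fun m => θ < ∑ n ∈ range (N m), q n / 2 ^ m).card * θ ≤
      (a * T + b) * (2 * θ') := by
  refine le_trans ?_ (sumV hq hθ hN hN' T)
  have h1 := Finset.card_nsmul_le_sum
    ((range T).filter fun m => θ < ∑ n ∈ range (N m), q n / 2 ^ m)
    (fun m => ∑ n ∈ range (N m), q n / 2 ^ m) θ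
    (fun m hm => (Finset.mem_filter.1 hm).2.le)
  rw [nsmul_eq_mul] at h1
  refine h1.trans (Finset.sum_le_sum_of_subset_of_nonneg (Finset.filter_subset _ _) ?_)
  intro m _ _
  exact Finset.sum_nonneg fun n _ => div_nonneg (hq n) (by positivity)

/-- the number of close times -/
theorem close_pow {p x : ℕ → ℝ} {C S : ℝ} (hC : 1 ≤ C) (hS : 0 < S)
    (h0 : p 0 = 1) (hp : ∀ n, 0 < p n) (hx : ∀ n, 0 < x n ∧ x n ≤ 1)
    (hrec : ∀ n, p (n + 1) ≤ C * x n * p n) (n : ℕ) :
    p n ≤ C ^ n * S ^ ((range n).filter fun j => x j < S).card := by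
  induction n with
  | zero => rw [h0]; simp
  | succ n ih =>
    have hC0 : 0 < C := by linarith
    by_cases h : x n < S
    · have e1 : ((range (n + 1)).filter fun j => x j < S).card =
          ((range n).filter fun j => x j < S).card + 1 := by
        rw [Finset.range_add_one, Finset.filter_insert, if_pos h, Finset.card_insert_of_notMem]
        simp
      rw [e1, pow_succ, pow_succ]
      have e2 : C * x n * p n ≤ C * S * (C ^ n * S ^ ((range n).filter fun j => x j < S).card) :=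
        mul_le_mul (mul_le_mul_of_nonneg_left h.le hC0.le) ih (hp n).le (by positivity)
      calc p (n + 1) ≤ C * x n * p n := hrec n
        _ ≤ C * S * (C ^ n * S ^ ((range n).filter fun j => x j < S).card) := e2
        _ = C ^ n * C * (S ^ ((range n).filter fun j => x j < S).card * S) := by ring
    · have e1 : ((range (n + 1)).filter fun j => x j < S).card =
          ((range n).filter fun j => x j < S).card := by
        rw [Finset.range_add_one, Finset.filter_insert, if_neg h]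
      rw [e1, pow_succ]
      have e2 : C * x n * p n ≤ C * 1 * (C ^ n * S ^ ((range n).filter fun j => x j < S).card) :=
        mul_le_mul (mul_le_mul_of_nonneg_left (hx n).2 hC0.le) ih (hp n).le (by positivity)
      calc p (n + 1) ≤ C * x n * p n := hrec n
        _ ≤ C * 1 * (C ^ n * S ^ ((range n).filter fun j => x j < S).card) := e2
        _ = C ^ n * C * S ^ ((range n).filter fun j => x j < S).card := by ring

theorem close_le {p x : ℕ → ℝ} {C D c : ℝ} {L e : ℕ} (hC : 1 ≤ C) (hD : 1 < D) (hCD : C ≤ D)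
    (hc : 0 < c) (hce : 1 ≤ c * D ^ e)
    (h0 : p 0 = 1) (hp : ∀ n, c ≤ p n) (hx : ∀ n, 0 < x n ∧ x n ≤ 1)
    (hrec : ∀ n, p (n + 1) ≤ C * x n * p n) (n : ℕ) :
    L * ((range n).filter fun j => x j < (D⁻¹) ^ L).card ≤ n + e := by
  have hD0 : 0 < D := by linarith
  have h1 := close_pow hC (pow_pos (inv_pos.2 hD0) L) h0
    (fun n => hc.trans_le (hp n)) hx hrec n
  set K := ((range n).filter fun j => x j < (D⁻¹) ^ L).card with hK
  rw [← pow_mul] at h1
  have h2 : c ≤ D ^ n * (D⁻¹) ^ (L * K) :=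
    (hp n).trans (h1.trans (mul_le_mul_of_nonneg_right (pow_le_pow_left₀ (by linarith) hCD n)
      (by positivity)))
  have h3 : D ^ (L * K) ≤ D ^ (n + e) := by
    have e1 : c * D ^ (L * K) ≤ D ^ n := by
      have h5 := mul_le_mul_of_nonneg_right h2 (pow_nonneg hD0.le (L * K))
      rw [mul_assoc, ← mul_pow, inv_mul_cancel₀ hD0.ne', one_pow, mul_one] at h5
      exact h5
    calc D ^ (L * K) = 1 * D ^ (L * K) := (one_mul _).symm
      _ ≤ (c * D ^ e) * D ^ (L * K) := mul_le_mul_of_nonneg_right hce (by positivity)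
      _ = (c * D ^ (L * K)) * D ^ e := by ring
      _ ≤ D ^ n * D ^ e := mul_le_mul_of_nonneg_right e1 (by positivity)
      _ = D ^ (n + e) := (pow_add _ _ _).symm
  exact (pow_le_pow_iff_right₀ hD).1 h3

theorem count2 {q x : ℕ → ℝ} {θ' A S : ℝ} {a b w : ℕ} {N : ℕ → ℕ} (hθ : 0 < θ')
    (hw : A ≤ θ' * 2 ^ w) (hN : ∀ m, N m ≤ a * m + b)
    (hN'' : ∀ m, θ' * 2 ^ m < q (N m)) (T : ℕ) :
    ((range T).filter fun m => x (N m) < S ∧ q (N m) ≤ A * 2 ^ m).card ≤
      w * ((range (a * T + b + 1)).filter fun j => x j < S).card := by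
  refine Finset.card_le_mul_card_image_of_maps_to (f := N) ?_ w ?_
  · intro m hm
    obtain ⟨h1, h2, -⟩ := Finset.mem_filter.1 hm
    refine Finset.mem_filter.2 ⟨Finset.mem_range.2 ?_, h2⟩
    have h3 := hN m
    have h4 : a * m ≤ a * T := Nat.mul_le_mul_left a (Finset.mem_range.1 h1).le
    omega
  · intro j _
    rcases (((range T).filter fun m => x (N m) < S ∧ q (N m) ≤ A * 2 ^ m).filter
      fun m => N m = j).eq_empty_or_nonempty with h | h
    · rw [h]
      simp
    · set F := (((range T).filter fun m => x (N m) < S ∧ q (N m) ≤ A * 2 ^ m).filter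
        fun m => N m = j) with hF
      have hm0 := F.min'_mem h
      set m₀ := F.min' h with hm₀
      have hq0 : q j ≤ A * 2 ^ m₀ := by
        obtain ⟨h5, h6⟩ := Finset.mem_filter.1 hm0
        have h7 := (Finset.mem_filter.1 h5).2.2
        rw [h6] at h7
        exact h7
      have hsub : F ⊆ Finset.Ico m₀ (m₀ + w) := by
        intro m hm
        rw [Finset.mem_Ico]
        refine ⟨F.min'_le m hm, ?_⟩
        have h6 : N m = j := (Finset.mem_filter.1 hm).2
        have h7 := hN'' m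
        rw [h6] at h7
        have h8 : θ' * 2 ^ m < θ' * 2 ^ (m₀ + w) := by
          calc θ' * 2 ^ m < q j := h7
            _ ≤ A * 2 ^ m₀ := hq0
            _ ≤ (θ' * 2 ^ w) * 2 ^ m₀ := mul_le_mul_of_nonneg_right hw (by positivity)
            _ = θ' * 2 ^ (m₀ + w) := by ring
        have h9 := lt_of_mul_lt_mul_left h8 hθ.le
        exact (pow_lt_pow_iff_right₀ (by norm_num : (1 : ℝ) < 2)).1 h9
      calc F.card ≤ (Finset.Ico m₀ (m₀ + w)).card := Finset.card_le_card hsub
        _ = w := by rw [Nat.card_Ico]; omega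

/-- good scales -/
theorem scale (k : ℕ) (C c μ : ℝ) (p x : Fin k → ℕ → ℝ) (hC : 1 ≤ C) (hc : 0 < c) (hμ : 1 < μ)
    (h0 : ∀ i, p i 0 = 1) (hp : ∀ i n, c * μ ^ n ≤ p i n) (hx : ∀ i n, 0 < x i n ∧ x i n ≤ 1)
    (hrec : ∀ i n, p i (n + 1) ≤ C * x i n * p i n) (θ : ℝ) (hθ : 0 < θ) (A : ℝ) :
    ∃ ε > (0 : ℝ), ∀ r₀ > (0 : ℝ), ∃ r : ℝ, 0 < r ∧ r < r₀ ∧
      ∀ i, ∃ N : ℕ, ∑ n ∈ Finset.range N, r * p i n / x i n ≤ θ ∧
        (ε ≤ r * p i N ∨ A * x i N ≤ r * p i N) := by
  classical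
  obtain ⟨a, ha⟩ := pow_unbounded_of_one_lt (2 : ℝ) hμ
  set θ' : ℝ := θ / (8 * (k + 1) * (a + 1)) with hθ'
  have hθ'0 : 0 < θ' := by positivity
  obtain ⟨b, hb⟩ := pow_unbounded_of_one_lt (θ' / c) hμ
  obtain ⟨w, hw⟩ := pow_unbounded_of_one_lt (A / θ') (by norm_num : (1 : ℝ) < 2)
  have hw' : A ≤ θ' * 2 ^ w := by
    rw [div_lt_iff₀ hθ'0] at hw
    linarith
  set L : ℕ := 4 * (k + 1) * (w + 1) * (a + 1) with hL
  have hD : 1 < C + 1 := by linarith
  obtain ⟨e, he⟩ := pow_unbounded_of_one_lt (1 / c) hD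
  have he' : 1 ≤ c * (C + 1) ^ e := by
    rw [div_lt_iff₀ hc] at he
    linarith
  set S : ℝ := ((C + 1)⁻¹) ^ L with hS
  have hS0 : 0 < S := by positivity
  have hq0 : ∀ i n, 0 < p i n := fun i n =>
    lt_of_lt_of_le (by positivity) (hp i n)
  have hpc : ∀ i n, c ≤ p i n := fun i n =>
    le_trans (le_mul_of_one_le_right hc.le (one_le_pow₀ hμ.le)) (hp i n)
  have hpq : ∀ i n, p i n ≤ p i n / x i n := fun i n => by
    rw [le_div_iff₀ (hx i n).1]
    exact mul_le_of_le_one_right (hq0 i n).le (hx i n).2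
  have hqpos : ∀ i n, 0 < p i n / x i n := fun i n => div_pos (hq0 i n) (hx i n).1
  have hbig : ∀ i m, θ' * 2 ^ m < p i (a * m + b) / x i (a * m + b) := by
    intro i m
    refine lt_of_lt_of_le ?_ ((hp i (a * m + b)).trans (hpq i _))
    have h1 : θ' < c * μ ^ b := by
      rw [div_lt_iff₀ hc] at hb
      linarith
    calc θ' * 2 ^ m < (c * μ ^ b) * 2 ^ m := mul_lt_mul_of_pos_right h1 (by positivity)
      _ ≤ (c * μ ^ b) * (μ ^ a) ^ m :=
          mul_le_mul_of_nonneg_left (pow_le_pow_left₀ (by norm_num) ha.le m) (by positivity)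
      _ = c * μ ^ (a * m + b) := by rw [pow_add, pow_mul]; ring
  choose N hN1 hN2 hN3 using fun i => exists_N (fun n => p i n / x i n) θ' a b (hbig i)
  refine ⟨θ' * S, by positivity, fun r₀ hr₀ => ?_⟩
  obtain ⟨M₀, hM₀⟩ := exists_pow_lt_of_lt_one hr₀ (by norm_num : (1 / 2 : ℝ) < 1)
  -- the bad scales
  let B1 : ℕ → Fin k → Finset ℕ := fun T i =>
    (range T).filter fun m => θ < ∑ n ∈ range (N i m), (p i n / x i n) / 2 ^ m
  let B2 : ℕ → Fin k → Finset ℕ := fun T i =>
    (range T).filter fun m => x i (N i m) < S ∧ p i (N i m) / x i (N i m) ≤ A * 2 ^ m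
  have hB1 : ∀ T i, ((B1 T i).card : ℝ) * θ ≤ (a * T + b) * (2 * θ') := fun T i =>
    count1 (fun n => (hqpos i n).le) hθ'0.le (hN1 i) (hN2 i) T θ
  have hB2 : ∀ T i, L * (B2 T i).card ≤ w * (a * T + b + 1 + e) := fun T i => by
    have h1 : (B2 T i).card ≤ w * ((range (a * T + b + 1)).filter fun j => x i j < S).card :=
      count2 (q := fun n => p i n / x i n) (x := x i) (S := S) hθ'0 hw' (hN1 i) (hN3 i) T
    have h2 : L * ((range (a * T + b + 1)).filter fun j => x i j < S).card ≤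
        a * T + b + 1 + e :=
      close_le hC hD (by linarith) hc he' (h0 i) (hpc i) (hx i) (hrec i) (a * T + b + 1)
    calc L * (B2 T i).card ≤
        L * (w * ((range (a * T + b + 1)).filter fun j => x i j < S).card) :=
          Nat.mul_le_mul_left L h1
      _ = w * (L * ((range (a * T + b + 1)).filter fun j => x i j < S).card) := by ring
      _ ≤ w * (a * T + b + 1 + e) := Nat.mul_le_mul_left w h2
  -- for large `T` there is a good scale
  obtain ⟨T, hT⟩ := exists_nat_gt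
    (2 * ((M₀ : ℝ) + k * (b * (2 * θ') / θ + w * (b + 1 + e) / L)))
  have hLpos : (0 : ℝ) < L := by
    rw [hL]
    push_cast
    positivity
  have hkpos : (0 : ℝ) ≤ k := Nat.cast_nonneg k
  have hapos : (0 : ℝ) ≤ a := Nat.cast_nonneg a
  have hwpos : (0 : ℝ) ≤ w := Nat.cast_nonneg w
  have hTpos : (0 : ℝ) ≤ T := Nat.cast_nonneg T
  have c1 : ∀ i, ((B1 T i).card : ℝ) ≤ T / (4 * (k + 1)) + b * (2 * θ') / θ := by
    intro i
    have h1 := hB1 T i
    rw [← le_div_iff₀ hθ] at h1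
    refine h1.trans ?_
    have h2 : (a * T + b) * (2 * θ') / θ = a * T * (2 * θ') / θ + b * (2 * θ') / θ := by ring
    rw [h2]
    refine add_le_add_left ?_ _
    have h3 : a * (T : ℝ) * (2 * θ') / θ = (T / (4 * (k + 1))) * (a / (a + 1)) := by
      rw [hθ']
      field_simp
      ring
    rw [h3]
    refine mul_le_of_le_one_right (by positivity) ?_
    rw [div_le_one (by positivity)]
    linarith
  have c2 : ∀ i, ((B2 T i).card : ℝ) ≤ T / (4 * (k + 1)) + w * (b + 1 + e) / L := by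
    intro i
    have h1 : (L : ℝ) * (B2 T i).card ≤ w * (a * T + b + 1 + e) := by exact_mod_cast hB2 T i
    rw [mul_comm, ← le_div_iff₀ hLpos] at h1
    refine h1.trans ?_
    have h2 : (w : ℝ) * (a * T + b + 1 + e) / L = w * a * T / L + w * (b + 1 + e) / L := by ring
    rw [h2]
    refine add_le_add_left ?_ _
    have h3 : (w : ℝ) * a * T / L = (T / (4 * (k + 1))) * ((w / (w + 1)) * (a / (a + 1))) := by
      rw [hL]
      push_cast
      field_simp
    rw [h3]
    refine mul_le_of_le_one_right (by positivity) ?_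
    refine mul_le_one₀ ?_ (by positivity) ?_
    · rw [div_le_one (by positivity)]
      linarith
    · rw [div_le_one (by positivity)]
      linarith
  have hex : ∃ m ∈ range T, m ∉ range M₀ ∪ (Finset.univ.biUnion fun i : Fin k => B1 T i ∪ B2 T i) := by
    by_contra hcon
    push Not at hcon
    have h1 : (range T) ⊆ range M₀ ∪ (Finset.univ.biUnion fun i : Fin k => B1 T i ∪ B2 T i) :=
      fun m hm => hcon m hm
    have h2 := (Finset.card_le_card h1).trans (Finset.card_union_le _ _)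
    rw [Finset.card_range, Finset.card_range] at h2
    have h3 : ((Finset.univ.biUnion fun i : Fin k => B1 T i ∪ B2 T i).card : ℝ) ≤
        ∑ i : Fin k, (((B1 T i).card : ℝ) + (B2 T i).card) := by
      have h4 := Finset.card_biUnion_le (s := Finset.univ) (t := fun i : Fin k => B1 T i ∪ B2 T i)
      have h5 : ∑ i : Fin k, (B1 T i ∪ B2 T i).card ≤
          ∑ i : Fin k, ((B1 T i).card + (B2 T i).card) :=
        Finset.sum_le_sum fun i _ => Finset.card_union_le _ _
      exact_mod_cast h4.trans h5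
    have h6 : ∑ i : Fin k, (((B1 T i).card : ℝ) + (B2 T i).card) ≤
        ∑ _i : Fin k, ((T / (4 * (k + 1)) + b * (2 * θ') / θ) +
          (T / (4 * (k + 1)) + w * (b + 1 + e) / L) : ℝ) :=
      Finset.sum_le_sum fun i _ => add_le_add (c1 i) (c2 i)
    rw [Finset.sum_const, Finset.card_univ, Fintype.card_fin, nsmul_eq_mul] at h6
    have h7 : (T : ℝ) ≤ M₀ + (Finset.univ.biUnion fun i : Fin k => B1 T i ∪ B2 T i).card := by
      exact_mod_cast h2
    have h8 : (k : ℝ) * ((T / (4 * (k + 1)) + b * (2 * θ') / θ) +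
        (T / (4 * (k + 1)) + w * (b + 1 + e) / L)) =
        (T / 2) * (k / (k + 1)) + k * (b * (2 * θ') / θ + w * (b + 1 + e) / L) := by
      field_simp
      ring
    have h9 : (T / 2 : ℝ) * (k / (k + 1)) ≤ T / 2 := by
      refine mul_le_of_le_one_right (by positivity) ?_
      rw [div_le_one (by positivity)]
      linarith
    linarith
  obtain ⟨m, hmT, hm⟩ := hex
  rw [Finset.mem_union, not_or] at hm
  obtain ⟨hm1, hm2⟩ := hm
  have hmM : M₀ ≤ m := by
    rw [Finset.mem_range, not_lt] at hm1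
    exact hm1
  have hr : (1 / 2 : ℝ) ^ m < r₀ :=
    lt_of_le_of_lt (pow_le_pow_of_le_one (by norm_num) (by norm_num) hmM) hM₀
  refine ⟨(1 / 2 : ℝ) ^ m, by positivity, hr, fun i => ⟨N i m, ?_, ?_⟩⟩
  · have h1 : m ∉ B1 T i := fun h => hm2 (Finset.mem_biUnion.2
      ⟨i, Finset.mem_univ i, Finset.mem_union_left _ h⟩)
    have h2 : ¬ θ < ∑ n ∈ range (N i m), (p i n / x i n) / 2 ^ m := fun h =>
      h1 (Finset.mem_filter.2 ⟨hmT, h⟩)
    refine le_trans (le_of_eq ?_) (not_lt.1 h2)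
    refine Finset.sum_congr rfl fun n _ => ?_
    rw [one_div, inv_pow]
    ring
  · have h1 : m ∉ B2 T i := fun h => hm2 (Finset.mem_biUnion.2
      ⟨i, Finset.mem_univ i, Finset.mem_union_right _ h⟩)
    have hxpos := (hx i (N i m)).1
    have e1 : (1 / 2 : ℝ) ^ m * p i (N i m) =
        ((p i (N i m) / x i (N i m)) / 2 ^ m) * x i (N i m) := by
      rw [one_div, inv_pow]
      field_simp
    rw [e1]
    rcases lt_or_ge (x i (N i m)) S with h | h
    · right
      have h2 : ¬ p i (N i m) / x i (N i m) ≤ A * 2 ^ m := fun h' =>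
        h1 (Finset.mem_filter.2 ⟨hmT, h, h'⟩)
      refine mul_le_mul_of_nonneg_right ?_ hxpos.le
      rw [le_div_iff₀ (by positivity)]
      exact (not_le.1 h2).le
    · left
      refine mul_le_mul ?_ h hS0.le (by have := hqpos i (N i m); positivity)
      rw [le_div_iff₀ (by positivity)]
      exact (hN3 i m).le

theorem t_SCALE : Pool.Agent.H211.HY.S_SCALE := by
  intro k C c μ p x hC hc hμ h0 hp hx hrec θ hθ A _
  exact scale k C c μ p x hC hc hμ h0 hp hx hrec θ hθ A

end Pool.Agent.H249.HY211
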